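import Pool.Agent.RBX.Rel

/-!
# A structural constraint on 4-colourings of `ZMod p` with few rainbow 4-term progressions

For every split of the four colours of a (nearly) balanced 4-colouring of `ZMod p` into two pairs,
either there are many rainbow 4-term progressions, or many 5-term progressions in which exactly the
second or exactly the fourth term lies on the other side of the split.
-/

set_option autoImplicit false

namespace Pool.Agent.Results.MP_ae1ffe_co.IsolatedPatterns

/-- The number of elements of colour `i`. -/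
noncomputable def classSize {p : ℕ} (c : ZMod p → Fin 4) (i : Fin 4) : ℕ := {x | c x = i}.ncard

/-- The number of pairs `(x, d)` with `d ≠ 0` such that `x, x + d, x + 2d, x + 3d` have four
distinct colours. -/
noncomputable def rainbowCount {p : ℕ} (c : ZMod p → Fin 4) : ℕ :=
  {q : ZMod p × ZMod p | q.2 ≠ 0 ∧
    [c q.1, c (q.1 + q.2), c (q.1 + 2 * q.2), c (q.1 + 3 * q.2)].Nodup}.ncard

/-- Among `x, x + d, …, x + 4d`, either exactly the second term or exactly the fourth term is
separated from the four others by the partition of `ZMod p` into `H` and its complement. -/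
def Isolated {p : ℕ} (H : Set (ZMod p)) (x d : ZMod p) : Prop :=
  ((x ∈ H ↔ x + 2 * d ∈ H) ∧ (x ∈ H ↔ x + 3 * d ∈ H) ∧ (x ∈ H ↔ x + 4 * d ∈ H) ∧
    ¬ (x ∈ H ↔ x + d ∈ H)) ∨
  ((x ∈ H ↔ x + d ∈ H) ∧ (x ∈ H ↔ x + 2 * d ∈ H) ∧ (x ∈ H ↔ x + 4 * d ∈ H) ∧
    ¬ (x ∈ H ↔ x + 3 * d ∈ H))

/-- The number of pairs `(x, d)`, `d ≠ 0`, with the isolated pattern. -/
noncomputable def isolatedCount {p : ℕ} (H : Set (ZMod p)) : ℕ :=
  {q : ZMod p × ZMod p | q.2 ≠ 0 ∧ Isolated H q.1 q.2}.ncard

/-- **Theorem.** Let `p ≥ 11` be prime and `c : ZMod p → Fin 4` with all colour classes of size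
`p / 4` up to an error of at most `3 / 4 + p / 40` (for instance a balanced colouring). For any two
colours `i ≠ j`, `p ^ 2 ≤ 51000 R + 28000 E`, where `R` is the number of rainbow 4-term progressions
and `E` is the number of 5-term progressions with the isolated pattern for the union of the classes
`i` and `j`. -/
theorem result : ∀ (p : ℕ), p.Prime → 11 ≤ p → ∀ c : ZMod p → Fin 4,
    (∀ i, |(classSize c i : ℝ) - p / 4| ≤ 3 / 4 + p / 40) →
    ∀ i j : Fin 4, i ≠ j →
    p ^ 2 ≤ 51000 * rainbowCount c + 28000 * isolatedCount {x | c x = i ∨ c x = j} := by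
  intro p hpr hp c hc i j hij
  have : Fact p.Prime := ⟨hpr⟩
  exact RBX.isoij hp c hc i j hij

end Pool.Agent.Results.MP_ae1ffe_co.IsolatedPatterns
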