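import Pool.Agent.RBX.Rel

/-!
# Rainbow 4-term progressions when two colour classes together form a progression

Let `p ≥ 11` be prime and `c` a 4-colouring of `ZMod p` whose four classes have
between `p / 4 - (3 / 4 + p / 40)` and `p / 4 + (3 / 4 + p / 40)` elements. If the union of two of the
classes is an arithmetic progression with `(p - 1) / 2` or `(p + 1) / 2` elements (or is close to
that), there are at least `p ^ 2 / 160000` rainbow 4-term arithmetic progressions.

The proof is a certificate: an explicit cost function on the windows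
`(c x, c (x + 2 d), c (x + 3 d), …, c (x + 9 d), c (x + 12 d))` whose average over all `(x, d)` is
known, and which is too large on every window without a rainbow progression and without a 5-term
progression in which exactly the second or exactly the fourth term lies on the other side of the
partition (two classes | two classes). The finite check runs in the kernel
(`Pool/Agent/RBX/Kc.lean`, tables in `Pool/Agent/RBX/Tb.lean`).
-/

set_option autoImplicit false

namespace Pool.Agent.Results.MP_ae1ffe_co.NearProgression

/-- The number of elements of colour `i`. -/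
noncomputable def classSize {p : ℕ} (c : ZMod p → Fin 4) (i : Fin 4) : ℕ := {x | c x = i}.ncard

/-- The union of the colour classes `i` and `j`. -/
def twoClasses {p : ℕ} (c : ZMod p → Fin 4) (i j : Fin 4) : Set (ZMod p) := {x | c x = i ∨ c x = j}

/-- `S` is an arithmetic progression `{a, a + q, …, a + (m - 1) q}` with difference `q ≠ 0`. -/
def IsProgression {p : ℕ} (S : Set (ZMod p)) : Prop :=
  ∃ (a q : ZMod p) (m : ℕ), q ≠ 0 ∧ S = {x | ∃ t : ℕ, t < m ∧ x = a + t * q}

/-- The number of pairs `(x, d)` with `d ≠ 0` such that `x, x + d, x + 2d, x + 3d` have four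
distinct colours. -/
noncomputable def rainbowCount {p : ℕ} (c : ZMod p → Fin 4) : ℕ :=
  {q : ZMod p × ZMod p | q.2 ≠ 0 ∧
    [c q.1, c (q.1 + q.2), c (q.1 + 2 * q.2), c (q.1 + 3 * q.2)].Nodup}.ncard

/-- **Theorem.** Let `p ≥ 11` be prime and `c : ZMod p → Fin 4`. Suppose every colour class has
`p / 4` elements up to an error of at most `3 / 4 + p / 40`, the union `H` of two classes has
`p / 2` elements up to an error of at most `1 / 2 + p / 10 ^ 6` (both hold for balanced colourings),
and `H` differs from an arithmetic progression in at most `p / 10 ^ 6` elements. Then there are at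
least `p ^ 2 / 160000` rainbow 4-term progressions. -/
theorem result : ∀ (p : ℕ), p.Prime → 11 ≤ p → ∀ c : ZMod p → Fin 4,
    (∀ i, |(classSize c i : ℝ) - p / 4| ≤ 3 / 4 + p / 40) →
    ∀ i j : Fin 4, i ≠ j → |((twoClasses c i j).ncard : ℝ) - p / 2| ≤ 1 / 2 + p / 10 ^ 6 →
    ∀ S : Set (ZMod p), IsProgression S →
    ((symmDiff (twoClasses c i j) S).ncard : ℝ) ≤ p / 10 ^ 6 →
    (p : ℝ) ^ 2 / 160000 ≤ rainbowCount c := by
  intro p hpr hp c hc i j hij hH S hS hI
  obtain ⟨a, q, m, hq, rfl⟩ := hS
  have : Fact p.Prime := ⟨hpr⟩
  have h := RBX.nearij hp c hc i j hij (by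
    norm_num at hH ⊢
    exact hH) a q m hq (by
    norm_num at hI ⊢
    exact hI)
  have h2 : (p : ℝ) ^ 2 ≤ 160000 * (RBX.rbc c : ℝ) := by exact_mod_cast h
  have h3 : (rainbowCount c : ℝ) = (RBX.rbc c : ℝ) := rfl
  rw [h3]
  linarith

end Pool.Agent.Results.MP_ae1ffe_co.NearProgression
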